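import Mathlib
import Pool.Agent.H25.MM.H388SL.DobC

/-!
# Equidistribution and sparse relations
-/

set_option autoImplicit false

open Finset Polynomial Module IntermediateField

namespace Pool.Agent.H388SL

variable {K : Type*} [Field K] [NumberField K]

/-- quantitative equidistribution: the first Fourier coefficient -/
lemma fourier_bound {β : K} (hβ : IsIntegral ℤ β) (hc : CInj β) :
    ‖∑ σ : K →ₐ[ℚ] ℂ, refl (σ β)‖ ^ 2 ≤
      4 * finrank ℚ K * lam β + finrank ℚ K * (1 + 2 * Real.log (2 * finrank ℚ K)) := by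
  classical
  set d := finrank ℚ K with hd
  have hd0 : 1 ≤ d := finrank_pos
  have hd1 : (1:ℝ) ≤ d := by exact_mod_cast hd0
  have hcard : Fintype.card (K →ₐ[ℚ] ℂ) = d := AlgHom.card ℚ K ℂ
  set N : ℝ := 2 * d with hN
  have hN2 : 2 ≤ N := by linarith
  have ht0 : 0 ≤ 1 - 1 / N := by
    rw [sub_nonneg, div_le_one (by linarith)]; linarith
  have ht1 : 1 - 1 / N < 1 := by
    have : 0 < 1 / N := by positivity
    linarith
  have hE := energy (Finset.univ : Finset (K →ₐ[ℚ] ℂ)) (fun _ => (1:ℝ)) (fun _ _ => zero_le_one)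
    (fun σ => σ β) (fun σ _ τ _ h h' => h (hc h')) ht0 ht1
  have h1 : 0 ≤ ∑ σ : K →ₐ[ℚ] ℂ, ∑ τ : K →ₐ[ℚ] ℂ,
      (if σ = τ then (0:ℝ) else 1 * 1 * Real.log ‖σ β - τ β‖) := by
    have h2 := Real.log_nonneg (one_le_disc hβ hc)
    have hne : ∀ σ : K →ₐ[ℚ] ℂ, ∀ τ ∈ Finset.univ.erase σ, ‖σ β - τ β‖ ≠ 0 := by
      intro σ τ hτ h
      exact (Finset.ne_of_mem_erase hτ) (hc (sub_eq_zero.mp (norm_eq_zero.mp h))).symm
    rw [Real.log_prod] at h2
    · refine h2.trans (le_of_eq ?_)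
      refine Finset.sum_congr rfl fun σ _ => ?_
      rw [Real.log_prod (fun τ hτ => hne σ τ hτ), ← Finset.add_sum_erase _ _ (Finset.mem_univ σ), if_pos rfl, zero_add]
      refine Finset.sum_congr rfl fun τ hτ => ?_
      rw [if_neg (Finset.ne_of_mem_erase hτ).symm]
      ring
    · intro σ _ h
      obtain ⟨τ, hτ, h⟩ := Finset.prod_eq_zero_iff.mp h
      exact hne σ τ hτ h
  have e1 : 1 / (1 - (1 - 1 / N)) = N := by
    field_simp; ring
  rw [e1] at hE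
  have e2 : Real.log (2 / (1 + (1 - 1 / N))) ≤ 1 / N := by
    have h1 : 1 + (1 - 1 / N) = (2 * N - 1) / N := by field_simp; ring
    have h2 : 2 / (1 + (1 - 1 / N)) = 1 + 1 / (2 * N - 1) := by
      rw [h1]
      have : 2 * N - 1 ≠ 0 := by nlinarith
      field_simp; ring
    rw [h2]
    have h3 : 0 < 1 / (2 * N - 1) := by apply div_pos one_pos; nlinarith
    have h4 := Real.log_le_sub_one_of_pos (show 0 < 1 + 1 / (2 * N - 1) by linarith)
    have h5 : 1 / (2 * N - 1) ≤ 1 / N := by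
      apply one_div_le_one_div_of_le (by linarith); linarith
    linarith
  simp only [one_mul, Finset.sum_const, Finset.card_univ, hcard, nsmul_eq_mul, mul_one,
    one_pow, Complex.ofReal_one] at hE h1
  have e3 : ∑ σ : K →ₐ[ℚ] ℂ, Real.log (max 1 ‖σ β‖) = lam β := rfl
  rw [e3] at hE
  have h3 : (1:ℝ) / 2 ≤ 1 - 1 / N := by
    have : 1 / N ≤ 1 / 2 := one_div_le_one_div_of_le (by norm_num) hN2
    linarith
  have h4 : (1:ℝ) / 2 * ‖∑ σ : K →ₐ[ℚ] ℂ, refl (σ β)‖ ^ 2 ≤ (1 - 1 / N) * ‖∑ σ : K →ₐ[ℚ] ℂ, refl (σ β)‖ ^ 2 :=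
    mul_le_mul_of_nonneg_right h3 (by positivity)
  have h5 : (d:ℝ) ^ 2 * Real.log (2 / (1 + (1 - 1 / N))) ≤ d / 2 := by
    calc (d:ℝ) ^ 2 * Real.log (2 / (1 + (1 - 1 / N))) ≤ (d:ℝ) ^ 2 * (1 / N) :=
          mul_le_mul_of_nonneg_left e2 (by positivity)
      _ = d / 2 := by rw [hN]; field_simp
  linarith

lemma refl_sub_le {z : ℂ} (hz : z ≠ 0) : ‖refl z - z / ‖z‖‖ ≤ |Real.log ‖z‖| := by
  have hz0 : 0 < ‖z‖ := norm_pos_iff.mpr hz
  unfold refl
  split_ifs with h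
  · have e : z - z / ‖z‖ = z * (((1 - 1 / ‖z‖ : ℝ)) : ℂ) := by
      push_cast; ring
    rw [e, norm_mul, Complex.norm_real, Real.norm_eq_abs]
    have h1 : Real.log ‖z‖ ≤ ‖z‖ - 1 := Real.log_le_sub_one_of_pos hz0
    have h2 : (1:ℝ) ≤ 1 / ‖z‖ := by rw [le_div_iff₀ hz0]; linarith
    rw [abs_of_nonpos (by linarith : 1 - 1 / ‖z‖ ≤ 0), abs_of_nonpos (by linarith : Real.log ‖z‖ ≤ 0)]
    have e2 : ‖z‖ * -(1 - 1 / ‖z‖) = 1 - ‖z‖ := by field_simp; ring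
    rw [e2]; linarith
  · push Not at h
    have e : (starRingEnd ℂ z)⁻¹ - z / ‖z‖ = z * (((1 / ‖z‖ ^ 2 - 1 / ‖z‖ : ℝ)) : ℂ) := by
      have h1 : z * starRingEnd ℂ z = ((‖z‖ ^ 2 : ℝ) : ℂ) := by
        rw [Complex.mul_conj, Complex.normSq_eq_norm_sq]
      have h2 : (starRingEnd ℂ z)⁻¹ = z / ((‖z‖ ^ 2 : ℝ) : ℂ) := by
        rw [← h1]
        have : starRingEnd ℂ z ≠ 0 := by simpa using hz
        field_simp
      rw [h2]; push_cast; ring
    rw [e, norm_mul, Complex.norm_real, Real.norm_eq_abs]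
    have h1 : Real.log (1 / ‖z‖) ≤ 1 / ‖z‖ - 1 := Real.log_le_sub_one_of_pos (by positivity)
    rw [one_div, Real.log_inv] at h1
    have h2 : 1 / ‖z‖ ^ 2 ≤ 1 / ‖z‖ := by
      apply one_div_le_one_div_of_le hz0; nlinarith
    rw [abs_of_nonpos (by linarith), abs_of_nonneg (Real.log_nonneg h.le)]
    have e2 : ‖z‖ * -(1 / ‖z‖ ^ 2 - 1 / ‖z‖) = 1 - ‖z‖⁻¹ := by field_simp; ring
    rw [e2]; linarith

/-- sum of absolute logarithms of conjugates of a unit -/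
lemma sum_abs_log {α : K} (h0 : α ≠ 0) (hunit : ∏ σ : K →ₐ[ℚ] ℂ, ‖σ α‖ = 1) :
    ∑ σ : K →ₐ[ℚ] ℂ, |Real.log ‖σ α‖| = 2 * lam α := by
  have h1 : ∑ σ : K →ₐ[ℚ] ℂ, Real.log ‖σ α‖ = 0 := by
    rw [← Real.log_prod, hunit, Real.log_one]
    intro σ _
    rw [norm_ne_zero_iff]
    exact (map_ne_zero σ).mpr h0
  have h2 : ∀ σ : K →ₐ[ℚ] ℂ, |Real.log ‖σ α‖| = 2 * Real.log (max 1 ‖σ α‖) - Real.log ‖σ α‖ := by
    intro σ
    rcases le_total ‖σ α‖ 1 with h | h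
    · have := Real.log_nonpos (norm_nonneg _) h
      rw [max_eq_left h, abs_of_nonpos this, Real.log_one]; ring
    · have := Real.log_nonneg h
      rw [max_eq_right h, abs_of_nonneg this]; ring
  rw [Finset.sum_congr rfl (fun σ _ => h2 σ), Finset.sum_sub_distrib, h1, ← Finset.mul_sum, lam]
  ring

end Pool.Agent.H388SL
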