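import Mathlib
import Pool.Agent.H25.MM.H388SL.SparseA

/-!
# A sparse relation forces a large power sum of normalized conjugates
-/

set_option autoImplicit false

open Finset Polynomial Module IntermediateField

namespace Pool.Agent.H388SL

variable {K : Type*} [Field K] [NumberField K]

/-- normalized conjugate -/
noncomputable def uu (α : K) (σ : K →ₐ[ℚ] ℂ) : ℂ := σ α / ‖σ α‖

lemma norm_uu {α : K} (h0 : α ≠ 0) (σ : K →ₐ[ℚ] ℂ) : ‖uu α σ‖ = 1 := by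
  have h : ‖σ α‖ ≠ 0 := norm_ne_zero_iff.mpr ((map_ne_zero σ).mpr h0)
  rw [uu, norm_div, Complex.norm_real, norm_norm, div_self h]

lemma sig_eq {α : K} (h0 : α ≠ 0) (σ : K →ₐ[ℚ] ℂ) : σ α = ‖σ α‖ * uu α σ := by
  have h : (‖σ α‖ : ℂ) ≠ 0 := by
    exact_mod_cast norm_ne_zero_iff.mpr ((map_ne_zero σ).mpr h0)
  rw [uu]; field_simp

/-- the value of `F` at the normalized conjugate -/
noncomputable def GG (F : ℤ[X]) (α : K) (σ : K →ₐ[ℚ] ℂ) : ℂ :=
  ∑ j ∈ F.support, ((F.coeff j : ℝ) : ℂ) * uu α σ ^ j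

lemma GG_small {F : ℤ[X]} {α : K} (h0 : α ≠ 0) (hF : aeval α F = 0) (σ : K →ₐ[ℚ] ℂ) :
    ‖GG F α σ‖ ^ 2 ≤ (∑ j ∈ F.support, |(F.coeff j : ℝ)|) ^ 2 *
      (2 * F.natDegree * |Real.log ‖σ α‖|) := by
  set L := ∑ j ∈ F.support, |(F.coeff j : ℝ)| with hL
  set ρ := Real.log ‖σ α‖ with hρ
  have hL0 : 0 ≤ L := Finset.sum_nonneg fun _ _ => abs_nonneg _
  have hpos : 0 < ‖σ α‖ := norm_pos_iff.mpr ((map_ne_zero σ).mpr h0)
  have hexp : Real.exp ρ = ‖σ α‖ := Real.exp_log hpos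
  have hu := norm_uu h0 σ
  -- vanishing
  have hz : ∑ j ∈ F.support, ((F.coeff j : ℝ) : ℂ) * ((‖σ α‖ ^ j : ℝ) : ℂ) * uu α σ ^ j = 0 := by
    have h1 : σ (aeval α F) = 0 := by rw [hF, map_zero]
    rw [map_aevalZ, Polynomial.aeval_eq_sum_range' (n := F.natDegree + 1) (Nat.lt_succ_self _)] at h1
    rw [← h1]
    symm
    have h2 : ∑ j ∈ Finset.range (F.natDegree + 1), F.coeff j • (σ α) ^ j =
        ∑ j ∈ F.support, F.coeff j • (σ α) ^ j := by
      symm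
      apply Finset.sum_subset
      · intro j hj
        rw [Finset.mem_range]
        exact Nat.lt_succ_of_le (Polynomial.le_natDegree_of_mem_supp j hj)
      · intro j _ hj
        rw [Polynomial.notMem_support_iff.mp hj, zero_smul]
    rw [h2]
    refine Finset.sum_congr rfl fun j _ => ?_
    rw [zsmul_eq_mul]
    conv_lhs => rw [sig_eq h0 σ]
    rw [mul_pow]
    push_cast
    ring
  -- trivial bound
  have htriv : ‖GG F α σ‖ ≤ L := by
    rw [GG, hL]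
    refine (norm_sum_le _ _).trans (le_of_eq ?_)
    refine Finset.sum_congr rfl fun j _ => ?_
    rw [norm_mul, norm_pow, hu, one_pow, mul_one, Complex.norm_real, Real.norm_eq_abs]
  have hD0 : (0:ℝ) ≤ F.natDegree := Nat.cast_nonneg _
  rcases le_total (F.natDegree * |ρ|) (1/2) with h | h
  · have hsm : ‖GG F α σ‖ ≤ L * (2 * F.natDegree * |ρ|) := by
      have e : GG F α σ = ∑ j ∈ F.support, ((F.coeff j : ℝ) : ℂ) * ((1 - ‖σ α‖ ^ j : ℝ) : ℂ) * uu α σ ^ j := by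
        have e1 : ∑ j ∈ F.support, ((F.coeff j : ℝ) : ℂ) * ((1 - ‖σ α‖ ^ j : ℝ) : ℂ) * uu α σ ^ j =
            GG F α σ - ∑ j ∈ F.support, ((F.coeff j : ℝ) : ℂ) * ((‖σ α‖ ^ j : ℝ) : ℂ) * uu α σ ^ j := by
          rw [GG, ← Finset.sum_sub_distrib]
          refine Finset.sum_congr rfl fun j _ => ?_
          push_cast; ring
        rw [e1, hz, sub_zero]
      rw [e, hL, Finset.sum_mul]
      refine (norm_sum_le _ _).trans (Finset.sum_le_sum fun j hj => ?_)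
      rw [norm_mul, norm_mul, norm_pow, hu, one_pow, mul_one, Complex.norm_real, Complex.norm_real,
        Real.norm_eq_abs, Real.norm_eq_abs]
      apply mul_le_mul_of_nonneg_left _ (abs_nonneg _)
      have hjD : (j:ℝ) ≤ F.natDegree := by
        exact_mod_cast Polynomial.le_natDegree_of_mem_supp j hj
      have h1 : ‖σ α‖ ^ j = Real.exp (j * ρ) := by
        rw [← hexp, ← Real.exp_nat_mul]
      have h2 : |(j:ℝ) * ρ| ≤ F.natDegree * |ρ| := by
        rw [abs_mul, abs_of_nonneg (Nat.cast_nonneg j)]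
        exact mul_le_mul_of_nonneg_right hjD (abs_nonneg _)
      rw [h1, abs_sub_comm]
      refine (Real.abs_exp_sub_one_le (by linarith)).trans ?_
      linarith
    have h3 : (2 * F.natDegree * |ρ|) ≤ 1 := by linarith
    have h4 : 0 ≤ 2 * F.natDegree * |ρ| := by positivity
    calc ‖GG F α σ‖ ^ 2 ≤ (L * (2 * F.natDegree * |ρ|)) ^ 2 :=
          pow_le_pow_left₀ (norm_nonneg _) hsm 2
      _ = L ^ 2 * ((2 * F.natDegree * |ρ|) * (2 * F.natDegree * |ρ|)) := by ring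
      _ ≤ L ^ 2 * ((2 * F.natDegree * |ρ|) * 1) := by gcongr
      _ = _ := by ring
  · have h3 : 1 ≤ 2 * F.natDegree * |ρ| := by linarith
    calc ‖GG F α σ‖ ^ 2 ≤ L ^ 2 * 1 := by
          rw [mul_one]; exact pow_le_pow_left₀ (norm_nonneg _) htriv 2
      _ ≤ _ := by gcongr

/-- Gram matrix argument -/
lemma gram {F : ℤ[X]} {α : K} (h0 : α ≠ 0) {ε : ℝ} (hε : 0 ≤ ε)
    (h : ∀ j ∈ F.support, ∀ l ∈ F.support, j ≠ l →
      ‖∑ σ : K →ₐ[ℚ] ℂ, uu α σ ^ j * starRingEnd ℂ (uu α σ ^ l)‖ ≤ ε) :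
    (finrank ℚ K) * (∑ j ∈ F.support, (F.coeff j : ℝ) ^ 2)
      - ε * (∑ j ∈ F.support, |(F.coeff j : ℝ)|) ^ 2 ≤ ∑ σ : K →ₐ[ℚ] ℂ, ‖GG F α σ‖ ^ 2 := by
  classical
  set d := finrank ℚ K with hd
  have hcard : Fintype.card (K →ₐ[ℚ] ℂ) = d := AlgHom.card ℚ K ℂ
  have e1 : ∑ σ : K →ₐ[ℚ] ℂ, ‖GG F α σ‖ ^ 2 = ∑ j ∈ F.support, ∑ l ∈ F.support,
      (F.coeff j : ℝ) * (F.coeff l : ℝ) *
        (∑ σ : K →ₐ[ℚ] ℂ, uu α σ ^ j * starRingEnd ℂ (uu α σ ^ l)).re := by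
    have h1 : ∀ σ : K →ₐ[ℚ] ℂ, ‖GG F α σ‖ ^ 2 = ∑ j ∈ F.support, ∑ l ∈ F.support,
      (F.coeff j : ℝ) * (F.coeff l : ℝ) * (uu α σ ^ j * starRingEnd ℂ (uu α σ ^ l)).re := by
      intro σ
      have h2 : ((‖GG F α σ‖ ^ 2 : ℝ) : ℂ) = ∑ j ∈ F.support, ∑ l ∈ F.support,
          (((F.coeff j : ℝ) * (F.coeff l : ℝ) : ℝ) : ℂ) * (uu α σ ^ j * starRingEnd ℂ (uu α σ ^ l)) := by
        rw [← Complex.normSq_eq_norm_sq, ← Complex.mul_conj, GG, map_sum, Finset.sum_mul_sum]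
        refine Finset.sum_congr rfl fun j _ => Finset.sum_congr rfl fun l _ => ?_
        rw [map_mul, Complex.conj_ofReal]
        push_cast; ring
      have h3 := congrArg Complex.re h2
      rw [Complex.ofReal_re, Complex.re_sum] at h3
      rw [h3]
      refine Finset.sum_congr rfl fun j _ => ?_
      rw [Complex.re_sum]
      refine Finset.sum_congr rfl fun l _ => ?_
      rw [Complex.re_ofReal_mul]
    rw [Finset.sum_congr rfl (fun σ _ => h1 σ), Finset.sum_comm]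
    refine Finset.sum_congr rfl fun j _ => ?_
    rw [Finset.sum_comm]
    refine Finset.sum_congr rfl fun l _ => ?_
    rw [Complex.re_sum, Finset.mul_sum]
  rw [e1]
  have hterm : ∀ j ∈ F.support, ∀ l ∈ F.support,
      (if j = l then (d:ℝ) * (F.coeff j : ℝ) ^ 2 else 0) - ε * (|(F.coeff j : ℝ)| * |(F.coeff l : ℝ)|) ≤
      (F.coeff j : ℝ) * (F.coeff l : ℝ) *
        (∑ σ : K →ₐ[ℚ] ℂ, uu α σ ^ j * starRingEnd ℂ (uu α σ ^ l)).re := by
    intro j hj l hl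
    by_cases hjl : j = l
    · subst hjl
      rw [if_pos rfl]
      have h1 : (∑ σ : K →ₐ[ℚ] ℂ, uu α σ ^ j * starRingEnd ℂ (uu α σ ^ j)).re = d := by
        have h2 : ∀ σ : K →ₐ[ℚ] ℂ, uu α σ ^ j * starRingEnd ℂ (uu α σ ^ j) = 1 := by
          intro σ
          rw [Complex.mul_conj, Complex.normSq_eq_norm_sq, norm_pow, norm_uu h0 σ]
          simp
        rw [Finset.sum_congr rfl (fun σ _ => h2 σ)]
        simp [hcard]
      rw [h1]
      have h3 : 0 ≤ ε * (|(F.coeff j : ℝ)| * |(F.coeff j : ℝ)|) := by positivity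
      nlinarith
    · rw [if_neg hjl, zero_sub]
      have h1 := h j hj l hl hjl
      have h2 : |(∑ σ : K →ₐ[ℚ] ℂ, uu α σ ^ j * starRingEnd ℂ (uu α σ ^ l)).re| ≤ ε :=
        (Complex.abs_re_le_norm _).trans h1
      have h3 : |(F.coeff j : ℝ) * (F.coeff l : ℝ) *
        (∑ σ : K →ₐ[ℚ] ℂ, uu α σ ^ j * starRingEnd ℂ (uu α σ ^ l)).re| ≤
          (|(F.coeff j : ℝ)| * |(F.coeff l : ℝ)|) * ε := by
        rw [abs_mul, abs_mul]
        exact mul_le_mul_of_nonneg_left h2 (by positivity)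
      have h4 := neg_abs_le ((F.coeff j : ℝ) * (F.coeff l : ℝ) *
        (∑ σ : K →ₐ[ℚ] ℂ, uu α σ ^ j * starRingEnd ℂ (uu α σ ^ l)).re)
      linarith
  have hsum := Finset.sum_le_sum fun j hj => Finset.sum_le_sum fun l hl => hterm j hj l hl
  refine le_trans (le_of_eq ?_) hsum
  simp_rw [Finset.sum_sub_distrib, Finset.sum_ite_eq]
  congr 1
  · rw [Finset.mul_sum]
    refine Finset.sum_congr rfl fun j hj => ?_
    rw [if_pos hj]
  · rw [sq, Finset.sum_mul_sum, Finset.mul_sum]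
    refine Finset.sum_congr rfl fun j _ => ?_
    rw [Finset.mul_sum]

/-- a sparse relation of small height gives a large power sum -/
lemma exists_power {F : ℤ[X]} {α : K} (h0 : α ≠ 0) (hunit : ∏ σ : K →ₐ[ℚ] ℂ, ‖σ α‖ = 1)
    (hF0 : F ≠ 0) (hF : aeval α F = 0)
    (hsmall : 8 * F.support.card * (F.natDegree * lam α) < finrank ℚ K) :
    ∃ m : ℕ, 1 ≤ m ∧ m ≤ F.natDegree ∧
      (finrank ℚ K : ℝ) / (2 * F.support.card) < ‖∑ σ : K →ₐ[ℚ] ℂ, uu α σ ^ m‖ := by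
  classical
  set d := finrank ℚ K with hd
  set k := F.support.card with hk
  have hd0 : (0:ℝ) < d := by exact_mod_cast (finrank_pos : 0 < finrank ℚ K)
  have hk0 : 0 < k := Finset.card_pos.mpr (Polynomial.support_nonempty.mpr hF0)
  have hk1 : (1:ℝ) ≤ k := by exact_mod_cast hk0
  by_contra hcon
  push Not at hcon
  have hall : ∀ j ∈ F.support, ∀ l ∈ F.support, j ≠ l →
      ‖∑ σ : K →ₐ[ℚ] ℂ, uu α σ ^ j * starRingEnd ℂ (uu α σ ^ l)‖ ≤ (d:ℝ) / (2 * k) := by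
    have key : ∀ j ∈ F.support, ∀ l ∈ F.support, l < j →
        ‖∑ σ : K →ₐ[ℚ] ℂ, uu α σ ^ j * starRingEnd ℂ (uu α σ ^ l)‖ ≤ (d:ℝ) / (2 * k) := by
      intro j hj l _ hlj
      have e : ∀ σ : K →ₐ[ℚ] ℂ, uu α σ ^ j * starRingEnd ℂ (uu α σ ^ l) = uu α σ ^ (j - l) := by
        intro σ
        have h1 : uu α σ ^ j = uu α σ ^ (j - l) * uu α σ ^ l := by
          rw [← pow_add, Nat.sub_add_cancel hlj.le]
        rw [h1, mul_assoc, Complex.mul_conj, Complex.normSq_eq_norm_sq, norm_pow, norm_uu h0 σ]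
        simp
      rw [Finset.sum_congr rfl (fun σ _ => e σ)]
      exact hcon (j - l) (by omega) ((Nat.sub_le _ _).trans (Polynomial.le_natDegree_of_mem_supp j hj))
    intro j hj l hl hjl
    rcases lt_or_gt_of_ne hjl with h | h
    · have h1 := key l hl j hj h
      have e : ∑ σ : K →ₐ[ℚ] ℂ, uu α σ ^ j * starRingEnd ℂ (uu α σ ^ l) =
          starRingEnd ℂ (∑ σ : K →ₐ[ℚ] ℂ, uu α σ ^ l * starRingEnd ℂ (uu α σ ^ j)) := by
        rw [map_sum]
        refine Finset.sum_congr rfl fun σ _ => ?_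
        rw [map_mul, Complex.conj_conj, mul_comm]
      rw [e, RCLike.norm_conj]
      exact h1
    · exact key j hj l hl h
  have h1 := gram (F := F) h0 (ε := (d:ℝ) / (2 * k)) (by positivity) hall
  set Q := ∑ j ∈ F.support, (F.coeff j : ℝ) ^ 2 with hQ
  set L := ∑ j ∈ F.support, |(F.coeff j : ℝ)| with hL
  have hQ0 : 0 < Q := by
    obtain ⟨i, hi⟩ := Polynomial.support_nonempty.mpr hF0
    apply Finset.sum_pos' (fun _ _ => sq_nonneg _) ⟨i, hi, _⟩
    have : (F.coeff i : ℝ) ≠ 0 := by exact_mod_cast Polynomial.mem_support_iff.mp hi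
    positivity
  have hLQ : L ^ 2 ≤ k * Q := by
    have h2 := sq_sum_le_card_mul_sum_sq (s := F.support) (f := fun j => |(F.coeff j : ℝ)|)
    simp only [sq_abs] at h2
    exact h2
  have h2 : ∑ σ : K →ₐ[ℚ] ℂ, ‖GG F α σ‖ ^ 2 ≤ L ^ 2 * (2 * F.natDegree * (2 * lam α)) := by
    refine (Finset.sum_le_sum fun σ _ => GG_small h0 hF σ).trans (le_of_eq ?_)
    rw [← sum_abs_log h0 hunit, Finset.mul_sum, Finset.mul_sum]
  have h3 : (d:ℝ) / (2 * k) * L ^ 2 ≤ d / 2 * Q := by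
    calc (d:ℝ) / (2 * k) * L ^ 2 ≤ (d:ℝ) / (2 * k) * (k * Q) := by gcongr
      _ = d / 2 * Q := by field_simp
  have hlam := lam_nonneg α
  have h4 : L ^ 2 * (2 * F.natDegree * (2 * lam α)) ≤ (k * Q) * (2 * F.natDegree * (2 * lam α)) :=
    mul_le_mul_of_nonneg_right hLQ (by positivity)
  have h5 : (d:ℝ) / 2 * Q ≤ (4 * k * (F.natDegree * lam α)) * Q := by nlinarith
  have h6 : (d:ℝ) / 2 ≤ 4 * k * (F.natDegree * lam α) := le_of_mul_le_mul_right h5 hQ0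
  linarith

end Pool.Agent.H388SL
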