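import Mathlib
import Pool.Agent.H25.MM.H388SL.SparseB

/-!
# Heights of zeros of sparse polynomials
-/

set_option autoImplicit false

open Finset Polynomial Module IntermediateField

namespace Pool.Agent.H388SL

lemma real_R {d' k : ℝ} (hd : 1 ≤ d') (hk : 1 ≤ k) (h : d' ≤ 32 * k ^ 2 * (1 + 2 * Real.log (2 * d'))) :
    d' * (Real.log (2 * d')) ^ 3 ≤ 2 ^ 23 * k ^ 2 * (Real.log (2 * k)) ^ 4 := by
  set x := Real.log (2 * d') with hx
  set y := Real.log (2 * k) with hy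
  have hlog2 := Real.log_two_gt_d9
  have hlog2' := Real.log_two_lt_d9
  have hx2 : Real.log 2 ≤ x := Real.log_le_log (by norm_num) (by linarith)
  have hy2 : Real.log 2 ≤ y := Real.log_le_log (by norm_num) (by linarith)
  have hx0 : 0 < x := by linarith
  have hy0 : 0 < y := by linarith
  have h1 : 1 ≤ 2 * x := by linarith
  have h2 : d' ≤ 128 * k ^ 2 * x := by nlinarith [sq_nonneg k]
  have h3 : x ≤ 16 * y := by
    have h4 : 2 * d' ≤ 256 * k ^ 2 * x := by linarith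
    have h5 : x ≤ Real.log (256 * k ^ 2 * x) := Real.log_le_log (by linarith) h4
    have h6 : Real.log (256 * k ^ 2 * x) = 8 * Real.log 2 + 2 * Real.log k + Real.log x := by
      have e : (256:ℝ) * k ^ 2 * x = 2 ^ 8 * k ^ 2 * x := by norm_num
      rw [e, Real.log_mul (by positivity) hx0.ne', Real.log_mul (by positivity) (by positivity),
        Real.log_pow, Real.log_pow]
      push_cast; ring
    have h7 : Real.log x ≤ x / 2 := by
      have := Real.log_le_sub_one_of_pos (show 0 < x / 2 by linarith)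
      rw [Real.log_div hx0.ne' (by norm_num)] at this
      linarith
    have h8 : y = Real.log 2 + Real.log k := by
      rw [hy, Real.log_mul (by norm_num) (by linarith)]
    have h9 : 0 ≤ Real.log k := Real.log_nonneg hk
    linarith
  calc d' * x ^ 3 ≤ (128 * k ^ 2 * x) * x ^ 3 := by gcongr
    _ = 128 * k ^ 2 * x ^ 4 := by ring
    _ ≤ 128 * k ^ 2 * (16 * y) ^ 4 := by gcongr
    _ = 2 ^ 23 * k ^ 2 * y ^ 4 := by ring

theorem sparse_root : ∃ c : ℝ, 0 < c ∧ ∀ (K : Type) [Field K] [NumberField K] (α : K),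
    IsIntegral ℤ α → α ≠ 0 → (∀ n : ℕ, 0 < n → α ^ n ≠ 1) → (∏ σ : K →ₐ[ℚ] ℂ, ‖σ α‖ = 1) →
    ∀ F : ℤ[X], F ≠ 0 → aeval α F = 0 →
      c * finrank ℚ K / ((F.support.card : ℝ) ^ 2 * (Real.log (2 * F.support.card)) ^ 4) ≤
        F.natDegree * lam α := by
  obtain ⟨c0, hc0, hdob⟩ := dob
  have hlog2 : 0 < Real.log 2 := Real.log_pos (by norm_num)
  refine ⟨min ((Real.log 2) ^ 4 / 256) (c0 / 2 ^ 23), by positivity, ?_⟩
  intro K _ _ α hα h0 hroot hunit F hF0 hF
  set c := min ((Real.log 2) ^ 4 / 256) (c0 / 2 ^ 23) with hc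
  have hc0' : 0 < c := by positivity
  set d := finrank ℚ K with hd
  set k := F.support.card with hk
  set D := F.natDegree with hD
  set lm := lam α with hlm
  have hlam : 0 ≤ lm := lam_nonneg α
  have hd0 : (0:ℝ) < d := by exact_mod_cast (finrank_pos : 0 < finrank ℚ K)
  have hk0 : 0 < k := Finset.card_pos.mpr (Polynomial.support_nonempty.mpr hF0)
  have hk1 : (1:ℝ) ≤ k := by exact_mod_cast hk0
  have hly : Real.log 2 ≤ Real.log (2 * k) := Real.log_le_log (by norm_num) (by linarith)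
  have hly0 : 0 < Real.log (2 * k) := by linarith
  rw [div_le_iff₀ (by positivity)]
  rcases le_or_gt (d:ℝ) (256 * k ^ 2 * (D * lm)) with hbig | hsmall
  · have h1 : c ≤ (Real.log 2) ^ 4 / 256 := min_le_left _ _
    have h2 : (Real.log 2) ^ 4 ≤ (Real.log (2 * k)) ^ 4 := by gcongr
    have h3 : 0 ≤ (D:ℝ) * lm := by positivity
    calc c * d ≤ (Real.log 2) ^ 4 / 256 * (256 * k ^ 2 * (D * lm)) := by gcongr
      _ = (D * lm) * (k ^ 2 * (Real.log 2) ^ 4) := by ring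
      _ ≤ (D * lm) * (k ^ 2 * (Real.log (2 * k)) ^ 4) := by gcongr
  · have hDl : 0 ≤ (D:ℝ) * lm := by positivity
    have hk2 : (k:ℝ) ≤ k ^ 2 := by nlinarith
    have hsm : 8 * (k:ℝ) * (D * lm) < d := by nlinarith
    obtain ⟨m, hm1, hmD, hm⟩ := exists_power h0 hunit hF0 hF hsm
    rw [← hd, ← hk] at hm
    set β := α ^ m with hβ
    have hβ0 : β ≠ 0 := pow_ne_zero _ h0
    have hβi : IsIntegral ℤ β := hα.pow m
    -- reflected sum
    have s1 : ‖∑ σ : K →ₐ[ℚ] ℂ, uu α σ ^ m‖ ≤ ‖∑ σ : K →ₐ[ℚ] ℂ, refl (σ β)‖ + 2 * (D * lm) := by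
      have h1 : ∀ σ : K →ₐ[ℚ] ℂ, ‖refl (σ β) - uu α σ ^ m‖ ≤ m * |Real.log ‖σ α‖| := by
        intro σ
        have h2 := refl_sub_le (z := σ β) ((map_ne_zero σ).mpr hβ0)
        have h3 : σ β / ‖σ β‖ = uu α σ ^ m := by
          rw [hβ, map_pow, norm_pow, uu, div_pow]; push_cast; ring
        have h4 : |Real.log ‖σ β‖| = m * |Real.log ‖σ α‖| := by
          rw [hβ, map_pow, norm_pow, Real.log_pow, abs_mul, abs_of_nonneg (Nat.cast_nonneg m)]
        rw [h3, h4] at h2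
        exact h2
      have h2 : ‖∑ σ : K →ₐ[ℚ] ℂ, refl (σ β) - ∑ σ : K →ₐ[ℚ] ℂ, uu α σ ^ m‖ ≤ 2 * (D * lm) := by
        rw [← Finset.sum_sub_distrib]
        refine (norm_sum_le _ _).trans ((Finset.sum_le_sum fun σ _ => h1 σ).trans ?_)
        rw [← Finset.mul_sum, sum_abs_log h0 hunit, ← hlm]
        have : (m:ℝ) ≤ D := by exact_mod_cast hmD
        nlinarith
      have h3 := norm_sub_norm_le (∑ σ : K →ₐ[ℚ] ℂ, uu α σ ^ m) (∑ σ : K →ₐ[ℚ] ℂ, refl (σ β))
      rw [norm_sub_rev] at h3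
      linarith
    -- transfer
    set g := AdjoinSimple.gen ℚ β with hg
    set e := finrank (adjoin ℚ {β}) K with he
    set d' := finrank ℚ (adjoin ℚ {β}) with hd'
    have hde : (d' : ℝ) * e = d := by
      exact_mod_cast finrank_mul_finrank ℚ (adjoin ℚ {β}) K
    have hd'0 : 0 < d' := finrank_pos
    have hd'1 : (1:ℝ) ≤ d' := by exact_mod_cast hd'0
    have he0 : 0 < e := finrank_pos
    have he1 : (1:ℝ) ≤ e := by exact_mod_cast he0
    have hgc : CInj g := CInj_gen β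
    have hga : algebraMap (adjoin ℚ {β}) K g = β := AdjoinSimple.algebraMap_gen ℚ β
    have hgi : IsIntegral ℤ g := by
      rw [← hga] at hβi
      exact (isIntegral_algebraMap_iff (algebraMap (adjoin ℚ {β}) K).injective).mp hβi
    have hg0 : g ≠ 0 := by
      rintro h
      rw [h, map_zero] at hga
      exact hβ0 hga.symm
    have hgroot : ∀ n : ℕ, 0 < n → g ^ n ≠ 1 := by
      intro n hn h
      have h1 := congrArg (algebraMap (adjoin ℚ {β}) K) h
      rw [map_pow, hga, map_one, hβ, ← pow_mul] at h1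
      exact hroot (m * n) (Nat.mul_pos hm1 hn) h1
    have t1 : ∑ σ : K →ₐ[ℚ] ℂ, refl (σ β) = (e : ℂ) * ∑ σ : (adjoin ℚ {β}) →ₐ[ℚ] ℂ, refl (σ g) := by
      rw [sum_embeddings' β refl, nsmul_eq_mul]
    have t2 : (m:ℝ) * lm = e * lam g := by
      rw [hlm, ← lam_pow, lam, sum_embeddings' (α ^ m) (fun z => Real.log (max 1 ‖z‖)), nsmul_eq_mul]
      rfl
    have t3 := fourier_bound hgi hgc
    rw [← hd'] at t3
    have t4 : ‖∑ σ : K →ₐ[ℚ] ℂ, refl (σ β)‖ = e * ‖∑ σ : (adjoin ℚ {β}) →ₐ[ℚ] ℂ, refl (σ g)‖ := by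
      rw [t1, norm_mul, Complex.norm_natCast]
    -- lower bound of the sum
    have t5 : (d:ℝ) / (4 * k) ≤ ‖∑ σ : K →ₐ[ℚ] ℂ, refl (σ β)‖ := by
      have h1 : (d:ℝ) / (2 * k) - 2 * (D * lm) ≤ ‖∑ σ : K →ₐ[ℚ] ℂ, refl (σ β)‖ := by linarith
      have h2 : 2 * (D * lm) ≤ (d:ℝ) / (4 * k) := by
        rw [le_div_iff₀ (by positivity)]
        linarith
      have h3 : (d:ℝ) / (2 * k) = 2 * (d / (4 * k)) := by field_simp; ring
      linarith
    have t6 : (1:ℝ) / (32 * k ^ 2) ≤ (1 + 2 * Real.log (2 * d')) / d' := by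
      have h1 : (d:ℝ) ^ 2 / (16 * k ^ 2) ≤ e ^ 2 * (4 * d' * lam g + d' * (1 + 2 * Real.log (2 * d'))) := by
        calc (d:ℝ) ^ 2 / (16 * k ^ 2) = (d / (4 * k)) ^ 2 := by field_simp; ring
          _ ≤ ‖∑ σ : K →ₐ[ℚ] ℂ, refl (σ β)‖ ^ 2 := by gcongr
          _ = e ^ 2 * ‖∑ σ : (adjoin ℚ {β}) →ₐ[ℚ] ℂ, refl (σ g)‖ ^ 2 := by rw [t4]; ring
          _ ≤ _ := by gcongr
      have h2 : (e:ℝ) ^ 2 * (4 * d' * lam g + d' * (1 + 2 * Real.log (2 * d')))
          = 4 * d * (m * lm) + d ^ 2 * ((1 + 2 * Real.log (2 * d')) / d') := by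
        rw [t2, ← hde]; field_simp
      have h3 : (m:ℝ) * lm ≤ D * lm := by
        have : (m:ℝ) ≤ D := by exact_mod_cast hmD
        exact mul_le_mul_of_nonneg_right this hlam
      have h4 : 4 * (d:ℝ) * (m * lm) ≤ d ^ 2 * (1 / (64 * k ^ 2)) := by
        have h5 : D * lm ≤ (d:ℝ) / (256 * k ^ 2) := by
          rw [le_div_iff₀ (by positivity)]; linarith
        calc 4 * (d:ℝ) * (m * lm) ≤ 4 * d * (d / (256 * k ^ 2)) := by gcongr; linarith
          _ = d ^ 2 * (1 / (64 * k ^ 2)) := by field_simp; ring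
      have h6 : (d:ℝ) ^ 2 * (1 / (32 * k ^ 2)) ≤ d ^ 2 * ((1 + 2 * Real.log (2 * d')) / d') := by
        have e1 : (d:ℝ) ^ 2 / (16 * k ^ 2) = d ^ 2 * (1 / (32 * k ^ 2)) + d ^ 2 * (1 / (64 * k ^ 2))
            + d ^ 2 * (1 / (64 * k ^ 2)) := by
          field_simp; ring
        have e2 : 0 ≤ (d:ℝ) ^ 2 * (1 / (64 * k ^ 2)) := by positivity
        rw [h2] at h1
        linarith
      exact le_of_mul_le_mul_left h6 (by positivity)
    have t7 : (d':ℝ) ≤ 32 * k ^ 2 * (1 + 2 * Real.log (2 * d')) := by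
      rw [div_le_div_iff₀ (by positivity) (by positivity)] at t6
      linarith
    have t8 := real_R hd'1 hk1 t7
    have t9 := hdob (adjoin ℚ {β}) g hgi hg0 hgroot hgc
    rw [← hd'] at t9
    have hl' : 0 < Real.log (2 * d') := Real.log_pos (by linarith)
    have t10 : c0 * d ≤ (D * lm) * (d' * (Real.log (2 * d')) ^ 3) := by
      rw [div_le_iff₀ (by positivity)] at t9
      have h3 : (m:ℝ) * lm ≤ D * lm := by
        have : (m:ℝ) ≤ D := by exact_mod_cast hmD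
        exact mul_le_mul_of_nonneg_right this hlam
      calc c0 * d = (d' * e) * c0 := by rw [hde]; ring
        _ ≤ (d' * e) * (lam g * (Real.log (2 * d')) ^ 3) := by gcongr
        _ = (e * lam g) * (d' * (Real.log (2 * d')) ^ 3) := by ring
        _ = (m * lm) * (d' * (Real.log (2 * d')) ^ 3) := by rw [t2]
        _ ≤ _ := by gcongr
    have h1 : c ≤ c0 / 2 ^ 23 := min_le_right _ _
    calc c * d ≤ c0 / 2 ^ 23 * d := by gcongr
      _ = (c0 * d) / 2 ^ 23 := by ring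
      _ ≤ ((D * lm) * (d' * (Real.log (2 * d')) ^ 3)) / 2 ^ 23 := by gcongr
      _ ≤ ((D * lm) * (2 ^ 23 * k ^ 2 * (Real.log (2 * k)) ^ 4)) / 2 ^ 23 := by gcongr
      _ = D * lm * (k ^ 2 * (Real.log (2 * k)) ^ 4) := by ring

end Pool.Agent.H388SL
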